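import Pool.Agent.Q54.ZR.Stm

/-!
Helper lemmas for the jobs C1 and PP of project ZR.
-/

set_option autoImplicit false
set_option linter.unusedSimpArgs false

namespace Pool.Agent.Q190.ZR

open Finset Pool.Agent.Q54.ZR

/-- `φ` changed at four positions. -/
def ps {α V : Type} [DecidableEq α] (φ : α → V) (u w1 v w2 : α) (X Z Y T : V) : α → V :=
  fun i => if i = u then X else if i = w1 then Z else if i = v then Y else if i = w2 then T
    else φ i

variable {α V : Type} [DecidableEq α]

theorem ps_u (φ : α → V) {u w1 v w2 : α} (X Z Y T X' : V) :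
    Function.update (ps φ u w1 v w2 X Z Y T) u X' = ps φ u w1 v w2 X' Z Y T := by
  funext i
  by_cases h : i = u
  · subst h; simp [ps]
  · simp [ps, Function.update_of_ne h, h]

theorem ps_w1 (φ : α → V) {u w1 v w2 : α} (h1 : w1 ≠ u) (X Z Y T Z' : V) :
    Function.update (ps φ u w1 v w2 X Z Y T) w1 Z' = ps φ u w1 v w2 X Z' Y T := by
  funext i
  by_cases h : i = w1
  · subst h; simp [ps, h1]
  · simp [ps, Function.update_of_ne h, h]

theorem ps_v (φ : α → V) {u w1 v w2 : α} (h1 : v ≠ u) (h2 : v ≠ w1) (X Z Y T Y' : V) :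
    Function.update (ps φ u w1 v w2 X Z Y T) v Y' = ps φ u w1 v w2 X Z Y' T := by
  funext i
  by_cases h : i = v
  · subst h; simp [ps, h1, h2]
  · simp [ps, Function.update_of_ne h, h]

theorem ps_w2 (φ : α → V) {u w1 v w2 : α} (h1 : w2 ≠ u) (h2 : w2 ≠ w1) (h3 : w2 ≠ v)
    (X Z Y T T' : V) :
    Function.update (ps φ u w1 v w2 X Z Y T) w2 T' = ps φ u w1 v w2 X Z Y T' := by
  funext i
  by_cases h : i = w2
  · subst h; simp [ps, h1, h2, h3]
  · simp [ps, Function.update_of_ne h, h]

theorem ps_m (φ : α → V) {u w1 v w2 m : α} (h1 : m ≠ u) (h2 : m ≠ w1) (h3 : m ≠ v)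
    (h4 : m ≠ w2) (X Z Y T R : V) :
    Function.update (ps φ u w1 v w2 X Z Y T) m R =
      ps (Function.update φ m R) u w1 v w2 X Z Y T := by
  funext i
  by_cases h : i = m
  · subst h; simp [ps, h1, h2, h3, h4]
  · simp [ps, Function.update_of_ne h]

theorem ps_inj (φ : α → V) (hφ : Function.Injective φ) {u w1 v w2 : α} {X Z Y T : V}
    (hn : [X, Z, Y, T].Nodup)
    (hR : ∀ i, i ≠ u → i ≠ w1 → i ≠ v → i ≠ w2 →
      φ i ≠ X ∧ φ i ≠ Z ∧ φ i ≠ Y ∧ φ i ≠ T) :
    Function.Injective (ps φ u w1 v w2 X Z Y T) := by
  simp only [List.nodup_cons, List.mem_cons, List.not_mem_nil, or_false, not_or,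
    List.nodup_nil, not_false_eq_true, and_true] at hn
  obtain ⟨⟨a1, a2, a3⟩, ⟨a4, a5⟩, a6⟩ := hn
  intro i j hij
  unfold ps at hij
  by_cases i1 : i = u
  · by_cases j1 : j = u
    · rw [i1, j1]
    · by_cases j2 : j = w1
      · simp [i1, j1, j2] at hij; exfalso; simp_all
      · by_cases j3 : j = v
        · simp [i1, j1, j2, j3] at hij; exfalso; simp_all
        · by_cases j4 : j = w2
          · simp [i1, j1, j2, j3, j4] at hij; exfalso; simp_all
          · have := hR j j1 j2 j3 j4
            simp [i1, j1, j2, j3, j4] at hij; exfalso; simp_all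
  · by_cases i2 : i = w1
    · by_cases j1 : j = u
      · simp [i1, j1, i2] at hij; exfalso; simp_all
      · by_cases j2 : j = w1
        · rw [i2, j2]
        · by_cases j3 : j = v
          · simp [i1, i2, j1, j2, j3] at hij; exfalso; simp_all
          · by_cases j4 : j = w2
            · simp [i1, i2, j1, j2, j3, j4] at hij; exfalso; simp_all
            · have := hR j j1 j2 j3 j4
              rw [if_neg i1, if_pos i2, if_neg j1, if_neg j2, if_neg j3, if_neg j4] at hij
              exact absurd hij.symm this.2.1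
    · by_cases i3 : i = v
      · by_cases j1 : j = u
        · simp [i1, j1, i2, i3] at hij; exfalso; simp_all
        · by_cases j2 : j = w1
          · simp [i1, i2, i3, j1, j2] at hij; exfalso; simp_all
          · by_cases j3 : j = v
            · rw [i3, j3]
            · by_cases j4 : j = w2
              · simp [i1, i2, i3, j1, j2, j3, j4] at hij; exfalso; simp_all
              · have := hR j j1 j2 j3 j4
                rw [if_neg i1, if_neg i2, if_pos i3, if_neg j1, if_neg j2, if_neg j3,
                  if_neg j4] at hij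
                exact absurd hij.symm this.2.2.1
      · by_cases i4 : i = w2
        · by_cases j1 : j = u
          · simp [i1, j1, i2, i3, i4] at hij; exfalso; simp_all
          · by_cases j2 : j = w1
            · simp [i1, i2, i3, i4, j1, j2] at hij; exfalso; simp_all
            · by_cases j3 : j = v
              · simp [i1, i2, i3, i4, j1, j2, j3] at hij; exfalso; simp_all
              · by_cases j4 : j = w2
                · rw [i4, j4]
                · have := hR j j1 j2 j3 j4
                  rw [if_neg i1, if_neg i2, if_neg i3, if_pos i4, if_neg j1, if_neg j2,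
                    if_neg j3, if_neg j4] at hij
                  exact absurd hij.symm this.2.2.2
        · have hi := hR i i1 i2 i3 i4
          by_cases j1 : j = u
          · simp [i1, j1, i2, i3, i4] at hij; exfalso; simp_all
          · by_cases j2 : j = w1
            · simp [i1, i2, i3, i4, j1, j2] at hij; exfalso; simp_all
            · by_cases j3 : j = v
              · simp [i1, i2, i3, i4, j1, j2, j3] at hij; exfalso; simp_all
              · by_cases j4 : j = w2
                · simp [i1, i2, i3, i4, j1, j2, j3, j4] at hij; exfalso; simp_all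
                · simp [i1, i2, i3, i4, j1, j2, j3, j4] at hij
                  exact hφ hij

theorem update_inj {φ : α → V} (hφ : Function.Injective φ) (a : α) (X : V)
    (hX : ∀ b, b ≠ a → φ b ≠ X) : Function.Injective (Function.update φ a X) := by
  intro i j hij
  by_cases hi : i = a
  · by_cases hj : j = a
    · rw [hi, hj]
    · rw [hi, Function.update_self, Function.update_of_ne hj] at hij
      exact absurd hij.symm (hX j hj)
  · by_cases hj : j = a
    · rw [hj, Function.update_self, Function.update_of_ne hi] at hij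
      exact absurd hij (hX i hi)
    · rw [Function.update_of_ne hi, Function.update_of_ne hj] at hij
      exact hφ hij

/-- The cube of the weights. -/
def cb [Fintype α] (G : SimpleGraph α) [DecidableRel G.Adj] (c : V → V → ZMod 3) (φ : α → V)
    (u w1 v w2 : α) (x x' z z' y y' t t' : V) (X Z Y T : Bool) : ZMod 3 :=
  S G c (ps φ u w1 v w2 (cond X x' x) (cond Z z' z) (cond Y y' y) (cond T t' t))

section cube

variable [Fintype α] (SD : S_SD) (G : SimpleGraph α) [DecidableRel G.Adj] (c : V → V → ZMod 3)
  (hc : IsSym c) (φ : α → V) {u w1 v w2 : α} (hn : [u, w1, v, w2].Nodup)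
  (x x' z z' y y' t t' : V)

include SD hc hn

theorem cb12 (Y T : Bool) :
    cb G c φ u w1 v w2 x x' z z' y y' t t' false false Y T
      - cb G c φ u w1 v w2 x x' z z' y y' t t' true false Y T
      - cb G c φ u w1 v w2 x x' z z' y y' t t' false true Y T
      + cb G c φ u w1 v w2 x x' z z' y y' t t' true true Y T =
      if G.Adj u w1 then br c x x' z z' else 0 := by
  simp only [List.nodup_cons, List.mem_cons, List.not_mem_nil, or_false, not_or,
    List.nodup_nil, not_false_eq_true, and_true] at hn
  obtain ⟨⟨a1, a2, a3⟩, ⟨a4, a5⟩, a6⟩ := hn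
  have h := SD α V G c hc (ps φ u w1 v w2 x z (cond Y y' y) (cond T t' t)) u w1 a1 x x' z z'
  simp only [ps_u, ps_w1 _ (Ne.symm a1)] at h
  exact h

theorem cb34 (X Z : Bool) :
    cb G c φ u w1 v w2 x x' z z' y y' t t' X Z false false
      - cb G c φ u w1 v w2 x x' z z' y y' t t' X Z true false
      - cb G c φ u w1 v w2 x x' z z' y y' t t' X Z false true
      + cb G c φ u w1 v w2 x x' z z' y y' t t' X Z true true =
      if G.Adj v w2 then br c y y' t t' else 0 := by
  simp only [List.nodup_cons, List.mem_cons, List.not_mem_nil, or_false, not_or,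
    List.nodup_nil, not_false_eq_true, and_true] at hn
  obtain ⟨⟨a1, a2, a3⟩, ⟨a4, a5⟩, a6⟩ := hn
  have h := SD α V G c hc (ps φ u w1 v w2 (cond X x' x) (cond Z z' z) y t) v w2 a6 y y' t t'
  simp only [ps_v _ (Ne.symm a2) (Ne.symm a4),
    ps_w2 _ (Ne.symm a3) (Ne.symm a5) (Ne.symm a6)] at h
  exact h

theorem cb13 (Z T : Bool) :
    cb G c φ u w1 v w2 x x' z z' y y' t t' false Z false T
      - cb G c φ u w1 v w2 x x' z z' y y' t t' true Z false T
      - cb G c φ u w1 v w2 x x' z z' y y' t t' false Z true T
      + cb G c φ u w1 v w2 x x' z z' y y' t t' true Z true T =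
      if G.Adj u v then br c x x' y y' else 0 := by
  simp only [List.nodup_cons, List.mem_cons, List.not_mem_nil, or_false, not_or,
    List.nodup_nil, not_false_eq_true, and_true] at hn
  obtain ⟨⟨a1, a2, a3⟩, ⟨a4, a5⟩, a6⟩ := hn
  have h := SD α V G c hc (ps φ u w1 v w2 x (cond Z z' z) y (cond T t' t)) u v a2 x x' y y'
  simp only [ps_u, ps_v _ (Ne.symm a2) (Ne.symm a4)] at h
  exact h

theorem cb14 (Z Y : Bool) :
    cb G c φ u w1 v w2 x x' z z' y y' t t' false Z Y false
      - cb G c φ u w1 v w2 x x' z z' y y' t t' true Z Y false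
      - cb G c φ u w1 v w2 x x' z z' y y' t t' false Z Y true
      + cb G c φ u w1 v w2 x x' z z' y y' t t' true Z Y true =
      if G.Adj u w2 then br c x x' t t' else 0 := by
  simp only [List.nodup_cons, List.mem_cons, List.not_mem_nil, or_false, not_or,
    List.nodup_nil, not_false_eq_true, and_true] at hn
  obtain ⟨⟨a1, a2, a3⟩, ⟨a4, a5⟩, a6⟩ := hn
  have h := SD α V G c hc (ps φ u w1 v w2 x (cond Z z' z) (cond Y y' y) t) u w2 a3 x x' t t'
  simp only [ps_u, ps_w2 _ (Ne.symm a3) (Ne.symm a5) (Ne.symm a6)] at h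
  exact h

theorem cb32 (X T : Bool) :
    cb G c φ u w1 v w2 x x' z z' y y' t t' X false false T
      - cb G c φ u w1 v w2 x x' z z' y y' t t' X false true T
      - cb G c φ u w1 v w2 x x' z z' y y' t t' X true false T
      + cb G c φ u w1 v w2 x x' z z' y y' t t' X true true T =
      if G.Adj v w1 then br c y y' z z' else 0 := by
  simp only [List.nodup_cons, List.mem_cons, List.not_mem_nil, or_false, not_or,
    List.nodup_nil, not_false_eq_true, and_true] at hn
  obtain ⟨⟨a1, a2, a3⟩, ⟨a4, a5⟩, a6⟩ := hn
  have h := SD α V G c hc (ps φ u w1 v w2 (cond X x' x) z y (cond T t' t)) v w1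
    (Ne.symm a4) y y' z z'
  simp only [ps_v _ (Ne.symm a2) (Ne.symm a4), ps_w1 _ (Ne.symm a1)] at h
  exact h

end cube

theorem cb_inj [DecidableEq V] (φ : α → V) (hφ : Function.Injective φ) {u w1 v w2 : α}
    {x x' z z' y y' t t' : V} (hn : [x, x', z, z', y, y', t, t'].Nodup)
    (hR : ∀ i, i ≠ u → i ≠ w1 → i ≠ v → i ≠ w2 → φ i ∉ [x, x', z, z', y, y', t, t'])
    (X Z Y T : Bool) :
    Function.Injective
      (ps φ u w1 v w2 (cond X x' x) (cond Z z' z) (cond Y y' y) (cond T t' t)) := by
  apply ps_inj φ hφ
  · simp only [List.nodup_cons, List.mem_cons, List.not_mem_nil, or_false, not_or,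
      List.nodup_nil, not_false_eq_true, and_true] at hn ⊢
    cases X <;> cases Z <;> cases Y <;> cases T <;> simp only [cond_true, cond_false] <;>
      tauto
  · intro i h1 h2 h3 h4
    have := hR i h1 h2 h3 h4
    simp only [List.mem_cons, List.not_mem_nil, or_false, not_or] at this
    cases X <;> cases Z <;> cases Y <;> cases T <;> simp only [cond_true, cond_false] <;>
      tauto

/-- finite facts -/
theorem fin1 : ∀ w e f : ZMod 3, e ≠ 0 → f ≠ 0 → w ≠ 0 → w + e ≠ 0 → w + f ≠ 0 →
    w + e + f ≠ 0 → False := by decide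

theorem fin2 : ∀ w P Q : ZMod 3, w ≠ 0 → w + P ≠ 0 → w + Q ≠ 0 →
    w + P + Q ≠ 0 → P = 0 ∨ Q = 0 := by decide

theorem fin2' : ∀ w P Q : ZMod 3, w ≠ 0 → w + P ≠ 0 → w + Q ≠ 0 →
    (P = 0 ∧ Q ≠ 0 ∨ P ≠ 0 ∧ Q = 0) → w = P + Q := by decide

set_option synthInstance.maxSize 100000 in
set_option maxSynthPendingDepth 100 in
theorem fin3 : ∀ p q b1 b2 e1 e2 : ZMod 3, (b1 ≠ 0 ∧ b2 ≠ 0 ∧ (p = 0 ∨ q = 0) ∧
    (p + b1 = 0 ∨ q + e2 = 0) ∧ (p + e1 = 0 ∨ q + b2 = 0) ∧
    (p + b1 + e1 = 0 ∨ q + e2 + b2 = 0)) →
    e1 ≠ 0 ∧ p = b1 + e1 ∧ q = b2 + e2 ∧ (p = 0 ∧ q ≠ 0 ∨ p ≠ 0 ∧ q = 0) ∧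
    (p + b1 = 0 ∧ q + e2 ≠ 0 ∨ p + b1 ≠ 0 ∧ q + e2 = 0) := by decide

/-- The four cube argument of case I. -/
theorem core1 (s : Bool → Bool → Bool → Bool → ZMod 3) (hs : ∀ X Z Y T, s X Z Y T ≠ 0)
    (b1 b2 : ZMod 3) (hb1 : b1 ≠ 0) (hb2 : b2 ≠ 0)
    (h12 : ∀ Y T, s false false Y T - s true false Y T - s false true Y T
      + s true true Y T = b1)
    (h34 : ∀ X Z, s X Z false false - s X Z true false - s X Z false true
      + s X Z true true = b2)
    (h13 : ∀ Z T, s false Z false T - s true Z false T - s false Z true T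
      + s true Z true T = 0)
    (h32 : ∀ X T, s X false false T - s X false true T - s X true false T
      + s X true true T = 0) : False := by
  have hD : ∃ T, s false false true T - s false false false T ≠ 0 := by
    by_contra hcon
    push Not at hcon
    apply hb2
    have h1 := hcon true
    have h2 := hcon false
    have h3 := h34 false false
    linear_combination -h3 + h1 - h2
  obtain ⟨T, hT⟩ := hD
  have hE : ∃ Z, s true Z false T - s false Z false T ≠ 0 := by
    by_contra hcon
    push Not at hcon
    apply hb1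
    have h1 := hcon true
    have h2 := hcon false
    have h3 := h12 false T
    linear_combination -h3 + h1 - h2
  obtain ⟨Z, hZ⟩ := hE
  have hT' : s false Z true T - s false Z false T ≠ 0 := by
    intro h
    apply hT
    cases Z
    · exact h
    · have := h32 false T
      linear_combination h - this
  have h4 := h13 Z T
  apply fin1 (s false Z false T) (s true Z false T - s false Z false T)
    (s false Z true T - s false Z false T) hZ hT' (hs _ _ _ _)
  · rw [add_sub_cancel]; exact hs _ _ _ _
  · rw [add_sub_cancel]; exact hs _ _ _ _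
  · have : s false Z false T + (s true Z false T - s false Z false T) +
        (s false Z true T - s false Z false T) = s true Z true T := by
      linear_combination -h4
    rw [this]; exact hs _ _ _ _

/-- The four cube argument for PP. -/
theorem core2 (s : Bool → Bool → Bool → Bool → ZMod 3) (hs : ∀ X Z Y T, s X Z Y T ≠ 0)
    (b1 b2 e1 e2 : ZMod 3) (hb1 : b1 ≠ 0) (hb2 : b2 ≠ 0)
    (h12 : ∀ Y T, s false false Y T - s true false Y T - s false true Y T
      + s true true Y T = b1)
    (h34 : ∀ X Z, s X Z false false - s X Z true false - s X Z false true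
      + s X Z true true = b2)
    (h13 : ∀ Z T, s false Z false T - s true Z false T - s false Z true T
      + s true Z true T = 0)
    (h14 : ∀ Z Y, s false Z Y false - s true Z Y false - s false Z Y true
      + s true Z Y true = e1)
    (h32 : ∀ X T, s X false false T - s X false true T - s X true false T
      + s X true true T = e2) :
    e1 ≠ 0 ∧ s false false false false = (b1 + e1) + (b2 + e2) ∧
    s true false false false = (b1 + e1) + (b2 + e2) + (b1 + e1) ∧
    s false true false false = (b1 + e1 + b1) + (b2 + e2 + e2) := by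
  have hPQ : ∀ Z T, s true Z false T - s false Z false T = 0 ∨
      s false Z true T - s false Z false T = 0 := by
    intro Z T
    apply fin2 (s false Z false T) _ _ (hs _ _ _ _)
    · rw [add_sub_cancel]; exact hs _ _ _ _
    · rw [add_sub_cancel]; exact hs _ _ _ _
    · have : s false Z false T + (s true Z false T - s false Z false T) +
          (s false Z true T - s false Z false T) = s true Z true T := by
        linear_combination -(h13 Z T)
      rw [this]; exact hs _ _ _ _
  set p := s true false false false - s false false false false with hp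
  set q := s false false true false - s false false false false with hq
  have p1 : s true true false false - s false true false false = p + b1 := by
    rw [hp]; linear_combination h12 false false
  have p2 : s true false false true - s false false false true = p + e1 := by
    rw [hp]; linear_combination h14 false false
  have p3 : s true true false true - s false true false true = p + b1 + e1 := by
    rw [hp]; linear_combination h12 false false + h14 true false
  have q1 : s false true true false - s false true false false = q + e2 := by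
    rw [hq]; linear_combination h32 false false
  have q2 : s false false true true - s false false false true = q + b2 := by
    rw [hq]; linear_combination h34 false false
  have q3 : s false true true true - s false true false true = q + e2 + b2 := by
    rw [hq]; linear_combination h32 false false + h34 false true
  have k0 := hPQ false false
  have k1 := hPQ true false
  have k2 := hPQ false true
  have k3 := hPQ true true
  rw [← hp, ← hq] at k0
  rw [p1, q1] at k1
  rw [p2, q2] at k2
  rw [p3, q3] at k3
  obtain ⟨r1, r2, r3, r4, r5⟩ := fin3 p q b1 b2 e1 e2 ⟨hb1, hb2, k0, k1, k2, k3⟩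
  have w0 : s false false false false = p + q := by
    apply fin2' _ _ _ (hs _ _ _ _) _ _ r4
    · rw [hp, add_sub_cancel]; exact hs _ _ _ _
    · rw [hq, add_sub_cancel]; exact hs _ _ _ _
  have w1 : s false true false false = (p + b1) + (q + e2) := by
    apply fin2' _ _ _ (hs _ _ _ _) _ _ r5
    · rw [← p1, add_sub_cancel]; exact hs _ _ _ _
    · rw [← q1, add_sub_cancel]; exact hs _ _ _ _
  refine ⟨r1, ?_, ?_, ?_⟩
  · rw [w0, r2, r3]
  · have : s true false false false = s false false false false + p := by
      rw [hp]; ring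
    rw [this, w0, r2, r3]
  · rw [w1, r2, r3]

theorem extG (hEXT : S_EXT) [Fintype α] [Fintype V] [DecidableEq V] (A : Finset α)
    (φ0 : α → V) (B : Finset V) (hinj : Set.InjOn φ0 (A : Set α)) (hm : ∀ a ∈ A, φ0 a ∈ B)
    (hcard : Fintype.card α + B.card ≤ A.card + Fintype.card V) :
    ∃ φ : α → V, Function.Injective φ ∧ (∀ a ∈ A, φ a = φ0 a) ∧ ∀ a, a ∉ A → φ a ∉ B := by
  have hB : (univ \ B).card = Fintype.card V - B.card := by
    rw [card_sdiff_of_subset (subset_univ _), card_univ]
  have hB2 : B.card ≤ Fintype.card V := card_le_univ B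
  obtain ⟨φ, h1, h2, h3⟩ := hEXT α V A φ0 (univ \ B) hinj
    (fun a ha => by simp [hm a ha]) (by rw [hB]; omega)
  refine ⟨φ, h1, h2, fun a ha => ?_⟩
  have := h3 a ha
  simpa using this

omit [DecidableEq α] in
theorem nodup4 {u w1 v w2 : α} (hn : [u, w1, v, w2].Nodup) :
    w1 ≠ u ∧ v ≠ u ∧ v ≠ w1 ∧ w2 ≠ u ∧ w2 ≠ w1 ∧ w2 ≠ v := by
  simp only [List.nodup_cons, List.mem_cons, List.not_mem_nil, or_false, not_or,
    List.nodup_nil, not_false_eq_true, and_true] at hn
  obtain ⟨⟨a1, a2, a3⟩, ⟨a4, a5⟩, a6⟩ := hn
  exact ⟨Ne.symm a1, Ne.symm a2, Ne.symm a4, Ne.symm a3, Ne.symm a5, Ne.symm a6⟩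

theorem ext4 (hEXT : S_EXT) [Fintype α] [Fintype V] [DecidableEq V] {u w1 v w2 : α}
    (hp : [u, w1, v, w2].Nodup) {x x' z z' y y' t t' : V}
    (hn : [x, x', z, z', y, y', t, t'].Nodup)
    (hcard : Fintype.card α + 4 ≤ Fintype.card V) :
    ∃ φ : α → V, Function.Injective φ ∧
      ∀ i, i ≠ u → i ≠ w1 → i ≠ v → i ≠ w2 → φ i ∉ [x, x', z, z', y, y', t, t'] := by
  obtain ⟨p1, p2, p3, p4, p5, p6⟩ := nodup4 hp
  have hA : ({u, w1, v, w2} : Finset α) = [u, w1, v, w2].toFinset := by
    ext i; simp
  have hAc : ({u, w1, v, w2} : Finset α).card = 4 := by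
    rw [hA, List.toFinset_card_of_nodup hp]; rfl
  have hn' := hn
  simp only [List.nodup_cons, List.mem_cons, List.not_mem_nil, or_false, not_or,
    List.nodup_nil, not_false_eq_true, and_true] at hn'
  obtain ⟨φ, h1, h2, h3⟩ := extG hEXT ({u, w1, v, w2} : Finset α)
    (ps (fun _ => x) u w1 v w2 x z y t) ([x, x', z, z', y, y', t, t'].toFinset) (by
      intro i hi j hj hij
      simp only [coe_insert, coe_singleton, Set.mem_insert_iff, Set.mem_singleton_iff]
        at hi hj
      rcases hi with rfl | rfl | rfl | rfl <;> rcases hj with rfl | rfl | rfl | rfl <;>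
        simp only [ps, p1, p2, p3, p4, p5, p6, if_true, if_false] at hij <;>
        first | rfl | (exfalso; tauto)) (by
      intro a ha
      simp only [mem_insert, mem_singleton] at ha
      rcases ha with rfl | rfl | rfl | rfl <;>
        simp [ps, p1, p2, p3, p4, p5, p6]) (by
      rw [hAc, List.toFinset_card_of_nodup hn]
      simp only [List.length_cons, List.length_nil]
      omega)
  refine ⟨φ, h1, fun i k1 k2 k3 k4 => ?_⟩
  have := h3 i (by simp [k1, k2, k3, k4])
  rwa [List.mem_toFinset] at this

theorem ext5 (hEXT : S_EXT) [Fintype α] [Fintype V] [DecidableEq V] {u w1 v w2 m : α}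
    (hp : [u, w1, v, w2, m].Nodup) {x x' z z' y y' t t' r r' : V}
    (hn : [x, x', z, z', y, y', t, t', r, r'].Nodup)
    (hcard : Fintype.card α + 5 ≤ Fintype.card V) :
    ∃ φ : α → V, Function.Injective φ ∧ φ m = r ∧
      (∀ i, i ≠ u → i ≠ w1 → i ≠ v → i ≠ w2 → φ i ∉ [x, x', z, z', y, y', t, t']) ∧
      (∀ i, i ≠ u → i ≠ w1 → i ≠ v → i ≠ w2 → i ≠ m → φ i ≠ r') ∧
      φ u = x ∧ φ w1 = z ∧ φ v = y ∧ φ w2 = t := by
  have hA : ({u, w1, v, w2, m} : Finset α) = [u, w1, v, w2, m].toFinset := by
    ext i; simp
  have hAc : ({u, w1, v, w2, m} : Finset α).card = 5 := by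
    rw [hA, List.toFinset_card_of_nodup hp]; rfl
  simp only [List.nodup_cons, List.mem_cons, List.not_mem_nil, or_false, not_or,
    List.nodup_nil, not_false_eq_true, and_true] at hp
  obtain ⟨⟨a1, a2, a3, b1⟩, ⟨a4, a5, b2⟩, ⟨a6, b3⟩, b4⟩ := hp
  have p1 := Ne.symm a1
  have p2 := Ne.symm a2
  have p3 := Ne.symm a3
  have p4 := Ne.symm a4
  have p5 := Ne.symm a5
  have p6 := Ne.symm a6
  have q1 := Ne.symm b1
  have q2 := Ne.symm b2
  have q3 := Ne.symm b3
  have q4 := Ne.symm b4
  have hn2 : [x, z, y, t, r].Nodup := by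
    refine List.Nodup.sublist ?_ hn
    exact .cons_cons _ (.cons _ (.cons_cons _ (.cons _ (.cons_cons _ (.cons _
      (.cons_cons _ (.cons _ (.cons_cons _ (.cons _ .slnil)))))))))
  simp only [List.nodup_cons, List.mem_cons, List.not_mem_nil, or_false, not_or,
    List.nodup_nil, not_false_eq_true, and_true] at hn2
  obtain ⟨φ, h1, h2, h3⟩ := extG hEXT ({u, w1, v, w2, m} : Finset α)
    (ps (fun _ => r) u w1 v w2 x z y t) ([x, x', z, z', y, y', t, t', r, r'].toFinset) (by
      intro i hi j hj hij
      simp only [coe_insert, coe_singleton, Set.mem_insert_iff, Set.mem_singleton_iff]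
        at hi hj
      rcases hi with rfl | rfl | rfl | rfl | rfl <;>
        rcases hj with rfl | rfl | rfl | rfl | rfl <;>
        simp only [ps, p1, p2, p3, p4, p5, p6, q1, q2, q3, q4, if_true, if_false] at hij <;>
        first | rfl | (exfalso; tauto)) (by
      intro a ha
      simp only [mem_insert, mem_singleton] at ha
      rcases ha with rfl | rfl | rfl | rfl | rfl <;>
        simp [ps, p1, p2, p3, p4, p5, p6, q1, q2, q3, q4]) (by
      rw [hAc, List.toFinset_card_of_nodup hn]
      simp only [List.length_cons, List.length_nil]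
      omega)
  have hm : φ m = r := by
    rw [h2 m (by simp)]; simp [ps, q1, q2, q3, q4]
  have hu : φ u = x := by
    rw [h2 u (by simp)]; simp [ps]
  have hw1 : φ w1 = z := by
    rw [h2 w1 (by simp)]; simp [ps, p1]
  have hv : φ v = y := by
    rw [h2 v (by simp)]; simp [ps, p2, p4]
  have hw2 : φ w2 = t := by
    rw [h2 w2 (by simp)]; simp [ps, p3, p5, p6]
  have hr : r ∉ [x, x', z, z', y, y', t, t'] ∧ r' ∉ [x, x', z, z', y, y', t, t'] := by
    have he : [x, x', z, z', y, y', t, t', r, r'] =
      [x, x', z, z', y, y', t, t'] ++ [r, r'] := rfl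
    rw [he, List.nodup_append] at hn
    exact ⟨fun h => hn.2.2 r h r (by simp) rfl, fun h => hn.2.2 r' h r' (by simp) rfl⟩
  refine ⟨φ, h1, hm, fun i k1 k2 k3 k4 => ?_, fun i k1 k2 k3 k4 k5 => ?_, hu, hw1, hv, hw2⟩
  · by_cases k5 : i = m
    · rw [k5, hm]
      exact hr.1
    · intro hcon
      apply h3 i (by simp [k1, k2, k3, k4, k5])
      rw [List.mem_toFinset]
      have he : [x, x', z, z', y, y', t, t', r, r'] =
        [x, x', z, z', y, y', t, t'] ++ [r, r'] := rfl
      rw [he, List.mem_append]
      exact Or.inl hcon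
  · intro hcon
    apply h3 i (by simp [k1, k2, k3, k4, k5])
    rw [hcon, List.mem_toFinset]
    simp

end Pool.Agent.Q190.ZR
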