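import Pool.Agent.Q54.ZR.Stm
import Pool.Agent.Q190.ZR.Base

set_option autoImplicit false
set_option linter.unusedSimpArgs false

namespace Pool.Agent.Q190.ZR

open Finset Pool.Agent.Q54.ZR

theorem not_flat {V : Type} {c : V → V → ZMod 3} {W : Finset V} (h : ¬ Flat c W) :
    ∃ x ∈ W, ∃ x' ∈ W, ∃ z ∈ W, ∃ z' ∈ W, [x, x', z, z'].Nodup ∧ br c x x' z z' ≠ 0 := by
  unfold Flat at h
  push Not at h
  obtain ⟨x, hx, x', hx', z, hz, z', hz', hn, hb⟩ := h
  exact ⟨x, hx, x', hx', z, hz, z', hz', hn, hb⟩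

theorem nodup8 {V : Type} {x x' z z' y y' t t' : V} (h1 : [x, x', z, z'].Nodup)
    (h2 : [y, y', t, t'].Nodup)
    (h3 : ∀ p ∈ [y, y', t, t'], p ≠ x ∧ p ≠ x' ∧ p ≠ z ∧ p ≠ z') :
    [x, x', z, z', y, y', t, t'].Nodup := by
  have : [x, x', z, z', y, y', t, t'] = [x, x', z, z'] ++ [y, y', t, t'] := rfl
  rw [this, List.nodup_append]
  refine ⟨h1, h2, ?_⟩
  intro a ha b hb hab
  obtain ⟨k1, k2, k3, k4⟩ := h3 b hb
  subst hab
  simp only [List.mem_cons, List.not_mem_nil, or_false] at ha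
  tauto

theorem c1 : S_ADD → S_EGZ → S_SD → S_EXT → S_C1 := by
  intro hADD hEGZ SD hEXT
  intro α V _ _ _ _ G _ c hc hdeg hcard u v w1 w2 huv nuv auw1 nvw1 avw2
  by_cases hf : Flat c univ
  · obtain ⟨h, hh⟩ := hADD V c univ hc (by rw [card_univ]; omega) hf
    obtain ⟨φ, h1, _, h3⟩ := hEGZ α V G c univ h hc hdeg hh (by rw [card_univ]; omega)
    exact ⟨φ, h1, h3⟩
  obtain ⟨x, -, x', -, z, -, z', -, hn1, hb1⟩ := not_flat hf
  set E : Finset V := {x, x', z, z'} with hE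
  have hEc : E.card ≤ 4 := card_le_four
  have hEcc : (univ \ E).card = Fintype.card V - E.card := by
    rw [card_sdiff_of_subset (subset_univ _), card_univ]
  by_cases hf2 : Flat c (univ \ E)
  · -- E has exactly 4 elements, card ≥ n + 2
    obtain ⟨h, hh⟩ := hADD V c (univ \ E) hc (by
      have : 0 < Fintype.card α := Fintype.card_pos_iff.mpr ⟨u⟩
      rw [hEcc]; omega) hf2
    obtain ⟨φ, h1, _, h3⟩ := hEGZ α V G c (univ \ E) h hc hdeg hh (by rw [hEcc]; omega)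
    exact ⟨φ, h1, h3⟩
  obtain ⟨y, hy, y', hy', t, ht, t', ht', hn2, hb2⟩ := not_flat hf2
  have hmem : ∀ p, p ∈ univ \ E ↔ (p ≠ x ∧ p ≠ x' ∧ p ≠ z ∧ p ≠ z') := by
    intro p; simp [hE]
  have hn : [x, x', z, z', y, y', t, t'].Nodup := by
    apply nodup8 hn1 hn2
    intro p hp
    rw [← hmem]
    simp only [List.mem_cons, List.not_mem_nil, or_false] at hp
    rcases hp with rfl | rfl | rfl | rfl <;> assumption
  by_contra hcon
  push Not at hcon
  have hw12 : w1 ≠ w2 := by rintro rfl; exact nvw1 avw2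
  have hw1v : w1 ≠ v := by rintro rfl; exact nuv auw1
  have hw2u : w2 ≠ u := by rintro rfl; exact nuv avw2.symm
  have hw1u : w1 ≠ u := by rintro rfl; exact G.loopless.irrefl _ auw1
  have hw2v : w2 ≠ v := by rintro rfl; exact G.loopless.irrefl _ avw2
  have hpos : [u, w1, v, w2].Nodup := by
    simp only [List.nodup_cons, List.mem_cons, List.not_mem_nil, or_false, not_or,
      List.nodup_nil, not_false_eq_true, and_true]
    exact ⟨⟨hw1u.symm, huv, hw2u.symm⟩, ⟨hw1v, hw12⟩, hw2v.symm⟩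
  obtain ⟨φ, hφ, hR⟩ := ext4 hEXT hpos hn (by omega)
  have k12 := cb12 SD G c hc φ hpos x x' z z' y y' t t'
  have k34 := cb34 SD G c hc φ hpos x x' z z' y y' t t'
  have k13 := cb13 SD G c hc φ hpos x x' z z' y y' t t'
  have k32 := cb32 SD G c hc φ hpos x x' z z' y y' t t'
  simp only [auw1, avw2, nuv, nvw1, if_true, if_false] at k12 k34 k13 k32
  exact core1 (cb G c φ u w1 v w2 x x' z z' y y' t t')
    (fun X Z Y T => hcon _ (cb_inj φ hφ hn hR X Z Y T)) _ _ hb1 hb2 k12 k34 k13 k32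

end Pool.Agent.Q190.ZR
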