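import Pool.Agent.Q54.ZR.Stm
import Pool.Agent.Q190.ZR.C1

set_option autoImplicit false
set_option linter.unusedSimpArgs false

namespace Pool.Agent.Q190.ZR

open Finset Pool.Agent.Q54.ZR

theorem c2 : S_C2 := by
  intro V _ _ c n hc hn5 hcard hPP
  by_cases hf : Flat c univ
  · exact ⟨univ, by rw [card_univ]; omega, hf⟩
  obtain ⟨x, -, x', -, z, -, z', -, hn1, hb1⟩ := not_flat hf
  set E : Finset V := {x, x', z, z'} with hE
  have hEc : E.card ≤ 4 := card_le_four
  have hEcc : (univ \ E).card = Fintype.card V - E.card := by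
    rw [card_sdiff_of_subset (subset_univ _), card_univ]
  by_cases hf2 : Flat c (univ \ E)
  · exact ⟨univ \ E, by rw [hEcc]; omega, hf2⟩
  obtain ⟨y, hy, y', hy', t, ht, t', ht', hn2, hb2⟩ := not_flat hf2
  set F : Finset V := {y, y', t, t'} with hF
  have hFc : F.card ≤ 4 := card_le_four
  have hmem : ∀ p, p ∈ univ \ E ↔ (p ≠ x ∧ p ≠ x' ∧ p ≠ z ∧ p ≠ z') := by
    intro p; simp [hE]
  have hFmem : ∀ p, p ∉ F ↔ (p ≠ y ∧ p ≠ y' ∧ p ≠ t ∧ p ≠ t') := by
    intro p; simp [hF]
  -- elements of E are not in F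
  have hEF : ∀ p ∈ E, p ∉ F := by
    intro p hp hpF
    have : p ∈ univ \ E := by
      simp only [hF, mem_insert, mem_singleton] at hpF
      rcases hpF with rfl | rfl | rfl | rfl <;> assumption
    simp at this
    exact this hp
  -- PP in the form we need
  have key : ∀ a a' b b' : V, [a, a', b, b'].Nodup → a ∉ F → a' ∉ F → b ∉ F → b' ∉ F →
      br c a a' b b' ≠ 0 → br c y y' b b' ≠ 0 ∧
      ∀ r r', r ∉ F → r' ∉ F → r ≠ r' → r ∉ ({a, a', b, b'} : Finset V) →
        r' ∉ ({a, a', b, b'} : Finset V) → br c y y' r r' = 0 := by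
    intro a a' b b' hnd ha ha' hb hb' hne
    have h8 : [y, y', t, t', a, a', b, b'].Nodup := by
      apply nodup8 hn2 hnd
      intro p hp
      rw [← hFmem]
      simp only [List.mem_cons, List.not_mem_nil, or_false] at hp
      rcases hp with rfl | rfl | rfl | rfl <;> assumption
    obtain ⟨k1, k2⟩ := hPP y y' t t' a a' b b' h8 hb2 hne
    refine ⟨k1, fun r r' hr hr' hrr hrQ hrQ' => k2 r r' ?_⟩
    have he : [y, y', t, t', a, a', b, b', r, r'] =
      [y, y', t, t', a, a', b, b'] ++ [r, r'] := rfl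
    rw [he, List.nodup_append]
    refine ⟨h8, by simpa using hrr, ?_⟩
    have q1 : ∀ s, s ∉ F → s ∉ ({a, a', b, b'} : Finset V) →
        s ∉ [y, y', t, t', a, a', b, b'] := by
      intro s s1 s2
      rw [hFmem] at s1
      simp only [mem_insert, mem_singleton, not_or] at s2
      simp only [List.mem_cons, List.not_mem_nil, or_false, not_or]
      tauto
    intro s hs s' hs' hss
    subst hss
    simp only [List.mem_cons, List.not_mem_nil, or_false] at hs'
    rcases hs' with rfl | rfl
    · exact q1 s hr hrQ hs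
    · exact q1 s hr' hrQ' hs
  have hbr : ∀ r r', br c y y' r r' = (c y r - c y' r) - (c y r' - c y' r') := by
    intro r r'; unfold br; ring
  set θ : V → ZMod 3 := fun r => c y r - c y' r with hθ
  have hxE : x ∈ E := by simp [hE]
  have hxE' : x' ∈ E := by simp [hE]
  have hzE : z ∈ E := by simp [hE]
  have hzE' : z' ∈ E := by simp [hE]
  have hnz : [z, z', x, x'].Nodup := by
    have hperm : ([z, z', x, x'] : List V).Perm [x, x', z, z'] :=
      List.perm_append_comm (l₁ := [z, z']) (l₂ := [x, x'])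
    exact hperm.nodup_iff.mpr hn1
  obtain ⟨k1, k2⟩ := key z z' x x' hnz (hEF _ hzE) (hEF _ hzE') (hEF _ hxE) (hEF _ hxE')
    (by rwa [br_symm hc])
  have hxx : θ x ≠ θ x' := by
    intro h; apply k1; rw [hbr]; exact sub_eq_zero.mpr h
  set R : Finset V := univ \ (E ∪ F) with hR
  have hRc : 4 ≤ R.card := by
    have h1 : (E ∪ F).card ≤ 8 := le_trans (card_union_le _ _) (by omega)
    rw [hR, card_sdiff_of_subset (subset_univ _), card_univ]; omega
  have hRm : ∀ r, r ∈ R ↔ r ∉ E ∧ r ∉ F := by intro r; simp [hR]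
  have hzx : ({z, z', x, x'} : Finset V) = E := by
    rw [hE]; ext p; simp only [mem_insert, mem_singleton]; tauto
  have hconst : ∀ r ∈ R, ∀ r' ∈ R, θ r = θ r' := by
    intro r hr r' hr'
    by_cases h : r = r'
    · rw [h]
    rw [hRm] at hr hr'
    have := k2 r r' hr.2 hr'.2 h (by rw [hzx]; exact hr.1) (by rw [hzx]; exact hr'.1)
    rw [hbr] at this
    exact sub_eq_zero.mp this
  obtain ⟨r0, hr0⟩ : R.Nonempty := card_pos.mp (by omega)
  have hp : ∃ p p', p ∈ E ∧ p' ∈ E ∧ θ p ≠ θ p' ∧ θ p ≠ θ r0 := by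
    by_cases h : θ x = θ r0
    · exact ⟨x', x, hxE', hxE, hxx.symm, fun h2 => hxx (h.trans h2.symm)⟩
    · exact ⟨x, x', hxE, hxE', hxx, h⟩
  obtain ⟨p, p', hpE, hpE', hpp, hp0⟩ := hp
  refine ⟨univ \ (insert p F), ?_, ?_⟩
  · have h1 : (insert p F).card ≤ 5 := le_trans (card_insert_le _ _) (by omega)
    rw [card_sdiff_of_subset (subset_univ _), card_univ]; omega
  · intro a ha a' ha' b hb b' hb' hnd
    by_contra hne
    simp only [mem_sdiff, mem_univ, true_and, mem_insert, not_or] at ha ha' hb hb'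
    obtain ⟨-, k3⟩ := key a a' b b' hnd ha.2 ha'.2 hb.2 hb'.2 hne
    set Q : Finset V := {a, a', b, b'} with hQ
    have hpQ : p ∉ Q := by
      simp only [hQ, mem_insert, mem_singleton, not_or]
      exact ⟨Ne.symm ha.1, Ne.symm ha'.1, Ne.symm hb.1, Ne.symm hb'.1⟩
    have hpF : p ∉ F := hEF p hpE
    have hpF' : p' ∉ F := hEF p' hpE'
    have hppne : p ≠ p' := fun h => hpp (by rw [h])
    by_cases hp'Q : p' ∈ Q
    · -- an element of R outside of Q
      have hQc : Q.card ≤ 4 := card_le_four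
      have h3 : (Q.erase p').card ≤ 3 := by
        rw [card_erase_of_mem hp'Q]; omega
      have h4 : (R \ (Q.erase p')).Nonempty := by
        rw [← card_pos]
        have := le_card_sdiff (Q.erase p') R
        omega
      obtain ⟨r, hr⟩ := h4
      rw [mem_sdiff] at hr
      have hrR := hr.1
      have hr2 : r ∉ Q := by
        intro h
        apply hr.2
        rw [mem_erase]
        refine ⟨?_, h⟩
        rintro rfl
        exact ((hRm r).mp hrR).1 hpE'
      have hrp : r ≠ p := by
        rintro rfl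
        exact ((hRm r).mp hrR).1 hpE
      have := k3 p r hpF ((hRm r).mp hrR).2 hrp.symm hpQ hr2
      rw [hbr] at this
      have h5 : θ p = θ r := sub_eq_zero.mp this
      exact hp0 (h5.trans (hconst r hrR r0 hr0))
    · have := k3 p p' hpF hpF' hppne hpQ hp'Q
      rw [hbr] at this
      exact hpp (sub_eq_zero.mp this)

end Pool.Agent.Q190.ZR
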