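import Pool.Agent.Q54.ZR.Stm
import Pool.Agent.Q190.ZR.Base

set_option autoImplicit false
set_option linter.unusedSimpArgs false

namespace Pool.Agent.Q190.ZR

open Finset Pool.Agent.Q54.ZR

section

variable {α V : Type} [Fintype α] [DecidableEq α] [Fintype V] [DecidableEq V]
  (G : SimpleGraph α) [DecidableRel G.Adj] (c : V → V → ZMod 3) (hc : IsSym c)
  (hcard : Fintype.card α + 5 ≤ Fintype.card V) (hNZ : NZ G c) (SD : S_SD) (hEXT : S_EXT)
  {u v w1 w2 m : α} (hp : [u, w1, v, w2, m].Nodup) (nuv : ¬ G.Adj u v) (auw1 : G.Adj u w1)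
  (auw2 : G.Adj u w2) (avw1 : G.Adj v w1) (avw2 : G.Adj v w2)

include hc hNZ SD nuv auw1 auw2 avw1 avw2 in
/-- The values of one cube. -/
theorem one_cube (hp4 : [u, w1, v, w2].Nodup) {φ : α → V} (hφ : Function.Injective φ)
    {x x' z z' y y' t t' : V} (hn : [x, x', z, z', y, y', t, t'].Nodup)
    (hR : ∀ i, i ≠ u → i ≠ w1 → i ≠ v → i ≠ w2 → φ i ∉ [x, x', z, z', y, y', t, t'])
    (hb1 : br c x x' z z' ≠ 0) (hb2 : br c y y' t t' ≠ 0) :
    br c x x' t t' ≠ 0 ∧
    S G c (ps φ u w1 v w2 x z y t) = (br c x x' z z' + br c x x' t t') +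
      (br c y y' t t' + br c y y' z z') ∧
    S G c (ps φ u w1 v w2 x' z y t) = (br c x x' z z' + br c x x' t t') +
      (br c y y' t t' + br c y y' z z') + (br c x x' z z' + br c x x' t t') ∧
    S G c (ps φ u w1 v w2 x z' y t) = (br c x x' z z' + br c x x' t t' + br c x x' z z') +
      (br c y y' t t' + br c y y' z z' + br c y y' z z') := by
  have k12 := cb12 SD G c hc φ hp4 x x' z z' y y' t t'
  have k34 := cb34 SD G c hc φ hp4 x x' z z' y y' t t'
  have k13 := cb13 SD G c hc φ hp4 x x' z z' y y' t t'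
  have k14 := cb14 SD G c hc φ hp4 x x' z z' y y' t t'
  have k32 := cb32 SD G c hc φ hp4 x x' z z' y y' t t'
  simp only [auw1, avw2, nuv, avw1, auw2, if_true, if_false] at k12 k34 k13 k32 k14
  exact core2 (cb G c φ u w1 v w2 x x' z z' y y' t t')
    (fun X Z Y T => hNZ _ (cb_inj φ hφ hn hR X Z Y T)) _ _ _ _ hb1 hb2 k12 k34 k13 k14 k32

include hc hcard hNZ SD hEXT hp nuv auw1 auw2 avw1 avw2 in
theorem partI {x x' z z' y y' t t' : V} (hn : [x, x', z, z', y, y', t, t'].Nodup)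
    (hb1 : br c x x' z z' ≠ 0) (hb2 : br c y y' t t' ≠ 0) : br c x x' t t' ≠ 0 := by
  have hp4 : [u, w1, v, w2].Nodup := by
    have : [u, w1, v, w2, m] = [u, w1, v, w2] ++ [m] := rfl
    rw [this, List.nodup_append] at hp
    exact hp.1
  obtain ⟨φ, hφ, hR⟩ := ext4 hEXT hp4 hn (by omega)
  exact (one_cube G c hc hNZ SD nuv auw1 auw2 avw1 avw2 hp4 hφ hn hR hb1 hb2).1

include hc hcard hNZ SD hEXT hp nuv auw1 auw2 avw1 avw2 in
theorem partII {x x' z z' y y' t t' r r' : V}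
    (hn : [x, x', z, z', y, y', t, t', r, r'].Nodup)
    (hb1 : br c x x' z z' ≠ 0) (hb2 : br c y y' t t' ≠ 0) :
    (if G.Adj u m then br c x x' r r' else 0) = 0 ∧
    (if G.Adj w1 m then br c z z' r r' else 0) = 0 := by
  have hp4 : [u, w1, v, w2].Nodup ∧ ∀ a ∈ [u, w1, v, w2], a ≠ m := by
    have : [u, w1, v, w2, m] = [u, w1, v, w2] ++ [m] := rfl
    rw [this, List.nodup_append] at hp
    exact ⟨hp.1, fun a ha h => hp.2.2 a ha m (by simp) h⟩
  obtain ⟨hp4, hm⟩ := hp4
  have mu : m ≠ u := fun h => hm u (by simp) h.symm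
  have mw1 : m ≠ w1 := fun h => hm w1 (by simp) h.symm
  have mv : m ≠ v := fun h => hm v (by simp) h.symm
  have mw2 : m ≠ w2 := fun h => hm w2 (by simp) h.symm
  have hn8 : [x, x', z, z', y, y', t, t'].Nodup ∧ r ≠ r' ∧
      r ∉ [x, x', z, z', y, y', t, t'] ∧ r' ∉ [x, x', z, z', y, y', t, t'] := by
    have he : [x, x', z, z', y, y', t, t', r, r'] =
      [x, x', z, z', y, y', t, t'] ++ [r, r'] := rfl
    rw [he, List.nodup_append] at hn
    refine ⟨hn.1, ?_, fun h => hn.2.2 r h r (by simp) rfl,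
      fun h => hn.2.2 r' h r' (by simp) rfl⟩
    have := hn.2.1
    simpa using this
  obtain ⟨hn8, hrr, hr, hr'⟩ := hn8
  obtain ⟨φ, hφ, hφm, hR, hR', fu, fw1, fv, fw2⟩ := ext5 hEXT hp hn hcard
  -- the second map
  set ψ := Function.update φ m r' with hψ
  have hψi : Function.Injective ψ := by
    apply update_inj hφ
    intro b hb
    by_cases h1 : b = u
    · rw [h1, fu]; intro h; apply hr'; rw [← h]; simp
    by_cases h2 : b = w1
    · rw [h2, fw1]; intro h; apply hr'; rw [← h]; simp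
    by_cases h3 : b = v
    · rw [h3, fv]; intro h; apply hr'; rw [← h]; simp
    by_cases h4 : b = w2
    · rw [h4, fw2]; intro h; apply hr'; rw [← h]; simp
    exact hR' b h1 h2 h3 h4 hb
  have hRψ : ∀ i, i ≠ u → i ≠ w1 → i ≠ v → i ≠ w2 → ψ i ∉ [x, x', z, z', y, y', t, t'] := by
    intro i h1 h2 h3 h4
    by_cases hi : i = m
    · rw [hi, hψ, Function.update_self]; exact hr'
    · rw [hψ, Function.update_of_ne hi]; exact hR i h1 h2 h3 h4
  have hφ' : Function.update φ m r = φ := by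
    rw [← hφm, Function.update_eq_self]
  obtain ⟨-, c1, c2, c3⟩ :=
    one_cube G c hc hNZ SD nuv auw1 auw2 avw1 avw2 hp4 hφ hn8 hR hb1 hb2
  obtain ⟨-, d1, d2, d3⟩ :=
    one_cube G c hc hNZ SD nuv auw1 auw2 avw1 avw2 hp4 hψi hn8 hRψ hb1 hb2
  obtain ⟨p1, p2, p3, p4, p5, p6⟩ := nodup4 hp4
  constructor
  · have h := SD α V G c hc (ps φ u w1 v w2 x z y t) u m mu.symm x x' r r'
    simp only [ps_u, ps_m _ mu mw1 mv mw2, hφ'] at h
    rw [← h, ← hψ, c1, c2, d1, d2]; ring
  · have h := SD α V G c hc (ps φ u w1 v w2 x z y t) w1 m mw1.symm z z' r r'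
    simp only [ps_w1 _ p1, ps_m _ mu mw1 mv mw2, hφ'] at h
    rw [← h, ← hψ, c1, c3, d1, d3]; ring

end

theorem swap8 {V : Type} {x x' z z' y y' t t' : V}
    (h : [x, x', z, z', y, y', t, t'].Nodup) : [z, z', x, x', y, y', t, t'].Nodup := by
  have hperm : ([z, z', x, x', y, y', t, t'] : List V).Perm
      [x, x', z, z', y, y', t, t'] := by
    have : ([z, z', x, x'] : List V).Perm [x, x', z, z'] := by
      exact List.perm_append_comm (l₁ := [z, z']) (l₂ := [x, x'])
    exact this.append_right [y, y', t, t']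
  exact hperm.nodup_iff.mpr h

theorem swap10 {V : Type} {x x' z z' y y' t t' r r' : V}
    (h : [x, x', z, z', y, y', t, t', r, r'].Nodup) :
    [z, z', x, x', y, y', t, t', r, r'].Nodup := by
  have hperm : ([z, z', x, x', y, y', t, t', r, r'] : List V).Perm
      [x, x', z, z', y, y', t, t', r, r'] := by
    have : ([z, z', x, x'] : List V).Perm [x, x', z, z'] := by
      exact List.perm_append_comm (l₁ := [z, z']) (l₂ := [x, x'])
    exact this.append_right [y, y', t, t', r, r']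
  exact hperm.nodup_iff.mpr h

theorem pp : S_SD → S_EXT → S_PP := by
  intro SD hEXT
  intro α V _ _ _ _ G _ c hc hcard hNZ u v w1 w2 m hp nuv auw1 auw2 avw1 avw2 hm
  have hp' : [u, w1, v, w2, m].Nodup := by
    have hperm : ([u, w1, v, w2, m] : List α).Perm [u, v, w1, w2, m] :=
      (List.Perm.swap v w1 [w2, m]).cons u
    exact hperm.nodup_iff.mpr hp
  intro x x' z z' y y' t t' hn hb1 hb2
  refine ⟨partI G c hc hcard hNZ SD hEXT hp' nuv auw1 auw2 avw1 avw2 hn hb1 hb2, ?_⟩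
  intro r r' hn10
  rcases hm with ⟨h1, h2⟩ | ⟨h1, h2, h3, h4⟩
  · have := (partII G c hc hcard hNZ SD hEXT hp' nuv auw1 auw2 avw1 avw2 hn10 hb1 hb2).1
    rwa [if_pos h1] at this
  · have hb1' : br c z z' x x' ≠ 0 := by rwa [br_symm hc]
    have := (partII G c hc hcard hNZ SD hEXT hp' nuv auw1 auw2 avw1 avw2 (swap10 hn10)
      hb1' hb2).2
    rwa [if_pos h3] at this

end Pool.Agent.Q190.ZR
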